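import Mathlib

namespace Pool.Agent.Results.MP_bd2914_ag.Count

open Polynomial Set Filter Metric Bornology Topology

/-- The derivative of the rational function `A / Q`. -/
noncomputable def der (A Q : ℂ[X]) : ℂ → ℂ := deriv fun w => A.eval w / Q.eval w

/-- The finite points where the derivative of `A / Q` is real or infinite. -/
def locus (A Q : ℂ[X]) : Set ℂ := {z | Q.eval z = 0 ∨ (der A Q z).im = 0}

/-- The number of bounded connected components of `I`. -/
noncomputable def nb (I : Set ℂ) : ℕ∞ :=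
  {C | IsBounded C ∧ ∃ z ∈ I, C = connectedComponentIn I z}.encard

lemma clop {I W : Set ℂ} (hI : IsClosed I) (hW : IsOpen W) {x : ℂ} (hx : x ∈ I)
    (hb : IsBounded (connectedComponentIn I x)) (h : connectedComponentIn I x ⊆ W) :
    ∃ K, IsCompact K ∧ K ⊆ I ∩ W ∧ x ∈ K ∧ ∀ z ∈ K, ∀ᶠ w in 𝓝 z, w ∈ I → w ∈ K := by
  obtain ⟨R, hR⟩ := hb.subset_ball 0
  let Y := I ∩ closedBall 0 R
  have xY : x ∈ Y := ⟨hx, ball_subset_closedBall (hR (mem_connectedComponentIn hx))⟩
  have : CompactSpace Y := isCompact_iff_compactSpace.1 ((isCompact_closedBall 0 R).inter_left hI)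
  have : Nonempty {s : Set Y // IsClopen s ∧ ⟨x, xY⟩ ∈ s} := ⟨⟨univ, isClopen_univ, trivial⟩⟩
  obtain ⟨⟨s, hs, xs⟩, e⟩ := (((hW.inter isOpen_ball).preimage
    continuous_subtype_val).isClosed_compl.isCompact (s := ((↑) ⁻¹' (W ∩ ball 0 R) : Set Y)ᶜ)
    ).elim_directed_family_closed (fun s : {s : Set Y // IsClopen s ∧ ⟨x, xY⟩ ∈ s} => s.1)
    (fun s => s.2.1.1) (by
      rw [← connectedComponent_eq_iInter_isClopen]
      refine eq_empty_of_forall_notMem fun y hy => hy.1 ?_
      have := connectedComponentIn_mono x inter_subset_left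
        (connectedComponentIn_eq_image xY ▸ mem_image_of_mem _ hy.2)
      exact ⟨h this, hR this⟩)
    fun s t => ⟨⟨s ∩ t, s.2.1.inter t.2.1, s.2.2, t.2.2⟩, inter_subset_left, inter_subset_right⟩
  have k : ∀ y ∈ s, y.1 ∈ W ∩ ball 0 R := fun y hy => by_contra fun c =>
    (eq_empty_iff_forall_notMem.1 e) y ⟨c, hy⟩
  refine ⟨(↑) '' s, hs.1.isCompact.image continuous_subtype_val, ?_, ⟨_, xs, rfl⟩, ?_⟩
  · rintro _ ⟨y, hy, rfl⟩
    exact ⟨y.2.1, (k y hy).1⟩
  rintro _ ⟨y, hy, rfl⟩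
  obtain ⟨O, o1, rfl⟩ := isOpen_induced_iff.1 hs.2
  filter_upwards [o1.mem_nhds hy, isOpen_ball.mem_nhds (k y hy).2] with w a b c using
    ⟨⟨w, c, ball_subset_closedBall b⟩, a, rfl⟩

lemma bigger {g : ℂ → ℂ} {z : ℂ} (hg : AnalyticAt ℂ g z) (h0 : (g z).im = 0)
    (hc : ¬∀ᶠ w in 𝓝 z, g w = g z) {P : ℂ → Prop} (hP : ∀ᶠ w in 𝓝 z, P w) :
    ∃ w, P w ∧ (g w).im = 0 ∧ ‖g z‖ < ‖g w‖ := by
  obtain ⟨s, hs⟩ : ∃ s : ℝ, ∀ t : ℝ, 0 < t → |(g z).re| < |(g z).re + t * s| := by
    rcases le_total 0 (g z).re with h | h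
    · exact ⟨1, fun t ht => by rw [abs_of_nonneg h, abs_of_pos] <;> linarith⟩
    · exact ⟨-1, fun t ht => by rw [abs_of_nonpos h, abs_of_neg] <;> linarith⟩
  have T : Tendsto (fun t : ℝ => g z + (t * s : ℝ)) (𝓝[>] 0) (𝓝 (g z)) :=
    (Continuous.tendsto' (by fun_prop) _ _ (by simp)).mono_left nhdsWithin_le_nhds
  obtain ⟨t, ⟨w, a, b⟩, c⟩ := ((T.eventually (hg.eventually_constant_or_nhds_le_map_nhds.resolve_left
    hc (image_mem_map hP))).and self_mem_nhdsWithin).exists
  have e : (g w).im = 0 := by simp [b, h0]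
  refine ⟨w, a, e, ?_⟩
  rw [← Complex.abs_re_eq_norm.2 h0, ← Complex.abs_re_eq_norm.2 e, b]
  simpa using hs t c

section
variable {A Q : ℂ[X]}

lemma ana {z : ℂ} (h : Q.eval z ≠ 0) : AnalyticAt ℂ (der A Q) z :=
  ((A.differentiable.analyticAt z).div (Q.differentiable.analyticAt z) h).deriv

lemma form {z : ℂ} (h : Q.eval z ≠ 0) :
    der A Q z = (derivative A * Q - A * derivative Q).eval z / (Q ^ 2).eval z := by
  simp [der, deriv_fun_div A.differentiableAt Q.differentiableAt h]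

lemma nz {z : ℂ} (h : Q.eval z ≠ 0) : ∀ᶠ w in 𝓝 z, Q.eval w ≠ 0 := Q.continuousAt.eventually_ne h

lemma closed : IsClosed (locus A Q) := isOpen_compl_iff.1 (isOpen_iff_mem_nhds.2 fun z hz => by
  obtain ⟨a, b⟩ := not_or.1 hz
  filter_upwards [nz a, (Complex.continuous_im.continuousAt.comp
    (ana (A := A) a).continuousAt).eventually_ne b] with w c d using not_or.2 ⟨c, d⟩)

variable (hc : IsCoprime A Q) (hQ : Q.natDegree ≠ 0)
include hc hQ

lemma noc (c : ℂ) : ¬{w | Q.eval w ≠ 0 ∧ der A Q w = c}.Infinite := fun h => by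
  have e := eq_of_infinite_eval_eq (derivative A * Q - A * derivative Q) (C c * Q ^ 2)
    (h.mono fun w hw => by
      have := hw.2
      rw [form hw.1, div_eq_iff (by simp [hw.1])] at this
      simpa using this)
  refine hQ (derivative_eq_zero.1 (dvd_derivative_iff.1
    (hc.symm.dvd_of_dvd_mul_left ⟨derivative A - C c * Q, ?_⟩)))
  linear_combination -e

lemma nomax {J : Set ℂ} (h1 : ∀ z ∈ J, z ∈ locus A Q ∧ Q.eval z ≠ 0)
    (h2 : ∀ z ∈ J, ∀ᶠ w in 𝓝 z, w ∈ locus A Q → w ∈ J) {z : ℂ} (hz : z ∈ J) :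
    ∃ w ∈ J, ‖der A Q z‖ < ‖der A Q w‖ := by
  obtain ⟨a, b⟩ := h1 z hz
  obtain ⟨w, c, d, e⟩ := bigger (ana b) (a.resolve_left b) (fun h => noc hc hQ _
    (infinite_of_mem_nhds z ((nz b).and h))) (h2 z hz)
  exact ⟨w, c (.inr d), e⟩

lemma pole {z : ℂ} (hz : z ∈ locus A Q) (hb : IsBounded (connectedComponentIn (locus A Q) z)) :
    ∃ p ∈ connectedComponentIn (locus A Q) z, Q.eval p = 0 := by
  by_contra! h
  obtain ⟨K, k1, k2, k3, k4⟩ := clop (W := {w | Q.eval w ≠ 0}) closed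
    (isOpen_ne_fun Q.continuous continuous_const) hz hb h
  obtain ⟨w, a, b⟩ := k1.exists_isMaxOn (f := fun w => ‖der A Q w‖) ⟨z, k3⟩ fun w hw =>
    (ana (k2 hw).2).continuousAt.norm.continuousWithinAt
  obtain ⟨v, c, d⟩ := nomax hc hQ k2 k4 a
  exact d.not_ge (b c)

lemma unb (hd : A.natDegree ≤ Q.natDegree) :
    ∃ p, Q.eval p = 0 ∧ ¬IsBounded (connectedComponentIn (locus A Q) p) := by
  by_contra! h
  have Q0 : Q ≠ 0 := fun e => hQ (by simp [e])
  choose! K k1 k2 k3 k4 using fun p (hp : Q.eval p = 0) => clop closed isOpen_univ (.inl hp)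
    (h p hp) (subset_univ _)
  set U := ⋃ p ∈ {p | Q.eval p = 0}, K p
  have cU : IsCompact U := (finite_setOfPred_isRoot Q0).isCompact_biUnion k1
  have nU : ∀ z, z ∉ U → Q.eval z ≠ 0 := fun z hz e => hz (mem_biUnion e (k3 z e))
  have far : ∀ᶠ z in cobounded ℂ, z ∉ U := cU.isBounded
  have T : Tendsto (der A Q) (cobounded ℂ) (𝓝 0) := by
    refine (isLittleO_cobounded_of_degree_lt (P := derivative A * Q - A * derivative Q)
      (Q := Q ^ 2) (degree_lt_degree ?_)).tendsto_div_nhds_zero.congr'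
        (far.mono fun z hz => (form (nU z hz)).symm)
    have a := natDegree_derivative_le A
    have b := natDegree_derivative_le Q
    have c := natDegree_mul_le (p := A) (q := derivative Q)
    have d : (derivative A * Q).natDegree < 2 * Q.natDegree := by
      rcases eq_or_ne A.natDegree 0 with e | e
      · simp [derivative_of_natDegree_zero e, Nat.pos_of_ne_zero hQ]
      · have := natDegree_mul_le (p := derivative A) (q := Q)
        omega
    rw [natDegree_pow]
    exact (natDegree_sub_le _ _).trans_lt (max_lt d (by omega))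
  have IU : locus A Q ⊆ U := fun z hz => by_contra fun zU => by
    have j1 : ∀ z ∈ locus A Q \ U, z ∈ locus A Q ∧ Q.eval z ≠ 0 := fun z a => ⟨a.1, nU z a.2⟩
    have j2 : ∀ z ∈ locus A Q \ U, ∀ᶠ w in 𝓝 z, w ∈ locus A Q → w ∈ locus A Q \ U := fun z a =>
      mem_of_superset (cU.isClosed.isOpen_compl.mem_nhds a.2) fun w b c => ⟨c, b⟩
    obtain ⟨v, a, b⟩ := nomax hc hQ j1 j2 ⟨hz, zU⟩
    obtain ⟨w, c, d⟩ := ContinuousOn.exists_isMaxOn' (f := fun w => ‖der A Q w‖)
      (fun w hw => (ana (j1 w hw).2).continuousAt.norm.continuousWithinAt)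
      (isOpen_compl_iff.1 (isOpen_iff_mem_nhds.2 fun w hw => by
        by_cases e : w ∈ U
        · obtain ⟨p, p1, p2⟩ := mem_iUnion₂.1 e
          filter_upwards [k4 p p1 w p2] with u f g using g.2 (mem_biUnion p1 (f g.1))
        · exact mem_of_superset (closed.isOpen_compl.mem_nhds fun g => hw ⟨g, e⟩)
            fun u f g => f g.1)) a (Eventually.filter_mono inf_le_left (by
      rw [← cobounded_eq_cocompact]
      exact T.norm.eventually (ge_mem_nhds (by simpa using (norm_nonneg _).trans_lt b))))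
    obtain ⟨u, e, f⟩ := nomax hc hQ j1 j2 c
    exact f.not_ge (d e)
  let g := Function.update (fun w => der A Q w⁻¹) 0 0
  have g0 : g 0 = 0 := Function.update_self ..
  have e : ∀ w, w ≠ 0 → g w = der A Q w⁻¹ := fun w hw => Function.update_of_ne hw ..
  have f : ∀ᶠ w in 𝓝[≠] (0 : ℂ), w⁻¹ ∉ U := tendsto_inv₀_nhdsNE_zero.eventually far
  obtain ⟨w, a, b, c⟩ := bigger (g := g) (z := 0) (P := fun w => w ≠ 0 → w⁻¹ ∉ U)
    (Complex.analyticAt_of_differentiable_on_punctured_nhds_of_continuousAt (by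
      filter_upwards [f, self_mem_nhdsWithin] with w a (b : w ≠ 0)
      exact ((ana (nU _ a)).differentiableAt.comp w (differentiableAt_inv b)).congr_of_eventuallyEq
        ((eventually_ne_nhds b).mono e))
      (continuousAt_update_same.2 (T.comp tendsto_inv₀_nhdsNE_zero))) (by simp [g0])
    (fun k => noc hc hQ 0 fun fin => by
      obtain ⟨z, ⟨a, b, c⟩, d⟩ := ((far.and (tendsto_inv₀_cobounded'.eventually ((k.filter_mono
        nhdsWithin_le_nhds).and self_mem_nhdsWithin))).and fin.isBounded).exists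
      exact d ⟨nU z a, by rw [← g0, ← b, e _ c, inv_inv]⟩) (eventually_nhdsWithin_iff.1 f)
  have w0 : w ≠ 0 := fun k => by simp [k] at c
  exact a w0 (IU (.inr (e w w0 ▸ b)))

lemma up {S : Set ℂ} (h : ∀ p, Q.eval p = 0 → IsBounded (connectedComponentIn (locus A Q) p) →
    p ∈ S) : nb (locus A Q) ≤ S.encard := by
  have : ∀ C ∈ {C | IsBounded C ∧ ∃ z ∈ locus A Q, C = connectedComponentIn (locus A Q) z},
      ∃ p ∈ S, C = connectedComponentIn (locus A Q) p := by
    rintro _ ⟨a, z, b, rfl⟩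
    obtain ⟨p, c, d⟩ := pole hc hQ b a
    exact ⟨p, h p d (connectedComponentIn_eq c ▸ a), connectedComponentIn_eq c⟩
  choose! f a b using this
  exact encard_le_encard_of_injOn a fun C c D d e => by rw [b C c, b D d, e]

end

lemma low {B Q : ℂ[X]} (Q0 : Q ≠ 0) (T : Finset ℂ) (H : ℂ → ℂ)
    (hT : ∀ p ∈ T, Q.eval p = 0 ∧ AnalyticAt ℂ H p ∧ deriv H p ≠ 0)
    (hB : ∀ z, Q.eval z ≠ 0 → B.eval z / Q.eval z = H z) : ∃ A : ℂ[X], IsCoprime A Q ∧
      A.natDegree = B.natDegree ∧ (T.card : ℕ∞) ≤ nb (locus A Q) := by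
  classical
  obtain ⟨t, ht⟩ := Infinite.exists_notMem_finset (T.image fun p =>
    -(deriv H p).im / (deriv H p).re)
  set c : ℂ := 1 + t * Complex.I
  have c0 : c ≠ 0 := fun e => by simpa [c] using congrArg Complex.re e
  have fin := finite_setOfPred_isRoot Q0
  have e : ∀ ε z, Q.eval z ≠ 0 → der (C c * B + C ε) Q z = c * deriv H z + ε * der 1 Q z :=
    fun ε z hz => by
    rw [← EventuallyEq.deriv_eq ((nz hz).mono hB)]
    change _ = c * der B Q z + _
    simp only [form hz]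
    simp
    ring
  have main : ∀ p ∈ T, ∀ᶠ ε in 𝓝 (0 : ℂ), ∃ r, 0 < r ∧ (∀ w ∈ ball p r, Q.eval w = 0 → w = p) ∧
      ∀ z ∈ sphere p r, z ∉ locus (C c * B + C ε) Q := fun p hp => by
    obtain ⟨-, a, b⟩ := hT p hp
    have b' : (c * deriv H p).im ≠ 0 := fun k => by
      have k' : (deriv H p).im + t * (deriv H p).re = 0 := by simpa [c] using k
      by_cases r : (deriv H p).re = 0
      · exact b (Complex.ext r (by simpa [r] using k'))
      · exact ht (Finset.mem_image.2 ⟨p, hp, by field_simp; linarith⟩)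
    obtain ⟨r, r0, hr⟩ := nhds_basis_closedBall.eventually_iff.1
      ((((Complex.continuous_im.continuousAt.comp (a.deriv.continuousAt.const_mul c)).eventually_ne
        b').and a.deriv.eventually_continuousAt).and
        ((fin.subset (sdiff_subset (t := {p}))).isClosed.isOpen_compl.mem_nhds (by simp)))
    have q : ∀ w ∈ closedBall p r, Q.eval w = 0 → w = p := fun w hw k => by_contra fun j =>
      (hr hw).2 ⟨k, j⟩
    have q' : ∀ z ∈ sphere p r, Q.eval z ≠ 0 := fun z hz k => by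
      simp [q z (sphere_subset_closedBall hz) k, r0.ne] at hz
    refine ((isCompact_sphere p r).eventually_forall_of_forall_eventually (P := fun ε z =>
      (c * deriv H z + ε * der 1 Q z).im ≠ 0) fun z hz => ContinuousAt.eventually_ne ?_
        (by simpa only [zero_mul, add_zero] using! (hr (sphere_subset_closedBall hz)).1.1)).mono
      fun ε k => ⟨r, r0, fun w hw => q w (ball_subset_closedBall hw), fun z hz j =>
        k z hz (e ε z (q' z hz) ▸ j.resolve_left (q' z hz))⟩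
    exact Complex.continuous_im.continuousAt.comp ((((hr (sphere_subset_closedBall
      hz)).1.2.comp_of_eq continuousAt_snd rfl).const_mul c).add (continuousAt_fst.mul
        ((ana (q' z hz)).continuousAt.comp_of_eq continuousAt_snd rfl)))
  obtain ⟨ε, h1, h2⟩ := ((((eventually_all_finset T).2 main).filter_mono nhdsWithin_le_nhds).and
    (show ∀ᶠ ε in 𝓝[≠] (0 : ℂ), ε ∉ (fun a => -(c * B.eval a)) '' {a | Q.IsRoot a} from
      eventually_nhdsWithin_iff.2 (mem_of_superset (((fin.image _).subset (sdiff_subset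
        (t := {0}))).isClosed.isOpen_compl.mem_nhds (by simp)) fun ε a b k => a ⟨k, b⟩))).exists
  refine ⟨C c * B + C ε, (isCoprime_iff_aeval_ne_zero_of_isAlgClosed ℂ ℂ _ _).2 fun a =>
    or_iff_not_imp_right.2 fun k j => h2 ⟨a, by simpa using k, ?_⟩,
    by rw [natDegree_add_C, natDegree_C_mul c0], ?_⟩
  · simp only [coe_aeval_eq_eval, eval_add, eval_mul, eval_C] at j
    linear_combination -j
  set I := locus (C c * B + C ε) Q
  choose! r r0 r1 r2 using h1
  have m : ∀ p ∈ T, p ∈ I := fun p hp => .inl (hT p hp).1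
  have s : ∀ p ∈ T, connectedComponentIn I p ⊆ ball p (r p) := fun p hp =>
    isPreconnected_connectedComponentIn.subset_left_of_subset_union isOpen_ball
      isClosed_closedBall.isOpen_compl (disjoint_compl_right.mono_left ball_subset_closedBall)
      (fun z hz => (lt_trichotomy (dist z p) (r p)).imp_right fun k => (k.resolve_left
        fun j => r2 p hp z j (connectedComponentIn_subset _ _ hz)).not_ge)
      ⟨p, mem_connectedComponentIn (m p hp), mem_ball_self (r0 p hp)⟩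
  rw [← encard_coe_eq_coe_finsetCard]
  exact encard_le_encard_of_injOn (f := connectedComponentIn I) (fun p hp => ⟨isBounded_ball.subset
    (s p hp), p, m p hp, rfl⟩) fun p hp q hq k => r1 q hq p (s q hq
      (k ▸ mem_connectedComponentIn (m p hp))) (hT p hp).1

/-- `m` gives the orders of the finite poles and `k` the order of the pole at infinity. -/
theorem result (m : ℂ →₀ ℕ) (hm : m ≠ 0) (k : ℕ) :
    IsGreatest {b | ∃ A Q : ℂ[X], Q ≠ 0 ∧ IsCoprime A Q ∧ (∀ p, Q.rootMultiplicity p = m p) ∧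
      A.natDegree - Q.natDegree = k ∧ b = nb (locus A Q)}
      ((if k = 0 then m.support.card - 1 else m.support.card : ℕ) : ℕ∞) := by
  classical
  have rt : ∀ Q : ℂ[X], Q ≠ 0 → (∀ p, Q.rootMultiplicity p = m p) → ∀ p, Q.eval p = 0 ↔
      p ∈ m.support := fun Q Q0 h p => by
    rw [Finsupp.mem_support_iff, ← h, ← pos_iff_ne_zero, rootMultiplicity_pos Q0, IsRoot]
  obtain ⟨p₁, h₁⟩ := Finsupp.support_nonempty_iff.2 hm
  have U : ∀ b ∈ {b | ∃ A Q : ℂ[X], Q ≠ 0 ∧ IsCoprime A Q ∧ (∀ p, Q.rootMultiplicity p = m p) ∧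
      A.natDegree - Q.natDegree = k ∧ b = nb (locus A Q)},
      b ≤ ((if k = 0 then m.support.card - 1 else m.support.card : ℕ) : ℕ∞) := by
    rintro _ ⟨A, Q, Q0, hc, h, hk, rfl⟩
    have hQ : Q.natDegree ≠ 0 := (natDegree_pos_of_eval₂_root Q0 (RingHom.id ℂ)
      ((rt Q Q0 h p₁).2 h₁) fun _ => id).ne'
    split_ifs with k0
    · obtain ⟨p, a, b⟩ := unb hc hQ (by omega)
      rw [← Finset.card_erase_of_mem ((rt Q Q0 h p).1 a), ← encard_coe_eq_coe_finsetCard]
      exact up hc hQ fun q c d => Finset.mem_erase.2 ⟨fun e => b (e ▸ d), (rt Q Q0 h q).1 c⟩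
    · rw [← encard_coe_eq_coe_finsetCard]
      exact up hc hQ fun q c _ => (rt Q Q0 h q).1 c
  refine ⟨?_, U⟩
  set Q := (m.toMultiset.map fun a => X - C a).prod
  have Q0 : Q ≠ 0 := (monic_multiset_prod_of_monic _ _ fun a _ => monic_X_sub_C a).ne_zero
  have h : ∀ p, Q.rootMultiplicity p = m p := fun p => by
    rw [← count_roots, roots_multiset_prod_X_sub_C, Finsupp.count_toMultiset]
  suffices ∃ A : ℂ[X], IsCoprime A Q ∧ A.natDegree - Q.natDegree = k ∧ ((if k = 0 then
      m.support.card - 1 else m.support.card : ℕ) : ℕ∞) ≤ nb (locus A Q) by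
    obtain ⟨A, a, b, c⟩ := this
    exact ⟨A, Q, Q0, a, h, b, c.antisymm (U _ ⟨A, Q, Q0, a, h, b, rfl⟩)⟩
  split_ifs with k0
  · obtain ⟨B, e⟩ := pow_rootMultiplicity_dvd Q p₁
    rw [h] at e
    obtain ⟨A, a, b, c⟩ := low (B := B) Q0 (m.support.erase p₁) (fun z => ((z - p₁) ^ m p₁)⁻¹)
      (fun p hp => by
        obtain ⟨a, b⟩ := Finset.mem_erase.1 hp
        have a' := pow_ne_zero (m p₁) (sub_ne_zero.2 a)
        refine ⟨(rt Q Q0 h p).2 b, AnalyticAt.inv (by fun_prop) a', ?_⟩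
        rw [deriv_fun_inv'' (c := fun z => (z - p₁) ^ m p₁) (by fun_prop) a']
        simp [sub_ne_zero.2 a, Finsupp.mem_support_iff.1 h₁])
      fun z hz => by
        rw [e, eval_mul] at hz ⊢
        simpa using div_mul_cancel_right₀ (right_ne_zero_of_mul hz) _
    exact ⟨A, a, k0 ▸ b ▸ Nat.sub_eq_zero_of_le (natDegree_le_of_dvd
      ⟨_, e.trans (mul_comm _ _)⟩ Q0), Finset.card_erase_of_mem h₁ ▸ c⟩
  obtain ⟨v, hv⟩ := Infinite.exists_notMem_finset m.support
  obtain ⟨A, a, b, c⟩ := low (B := (X - C v) ^ k * Q) Q0 m.support (fun z => (z - v) ^ k)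
    (fun p hp => ⟨(rt Q Q0 h p).2 hp, by fun_prop, by
      simp [sub_ne_zero.2 (ne_of_mem_of_not_mem hp hv), k0]⟩) fun z hz => by simp [hz]
  exact ⟨A, a, by rw [b, natDegree_mul (pow_ne_zero _ (X_sub_C_ne_zero v)) Q0]; simp, c⟩

end Pool.Agent.Results.MP_bd2914_ag.Count
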